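import Pool.Agent.J4H20.TP.Stm
import Pool.Agent.J4H19.TR.R4

set_option autoImplicit false

/-! # Project TP, (R4P): scaling to integers -/

namespace Pool.Agent.J4H97.TP

open Polynomial Pool.Agent.J4H20.TP
open Pool.Agent.J4H19.TR (mul_int exists_den scl scl_coeff scl_int)

/-- (R4P) -/
theorem t_R4P : S_R3P → S_R4P := by
  classical
  intro h3 p e hp hp2 he
  obtain ⟨b₀, g, r, α, β, hb₀, hg, hgn, hr, hf₀, hα, hαβ, hno⟩ := h3 p e hp hp2 (by omega)
  have hpe : 2 ≤ p * e := by nlinarith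
  obtain ⟨k, hk⟩ : ∃ k, k + 2 = p * e := ⟨p * e - 2, by omega⟩
  obtain ⟨a, ha, hf⟩ : ∃ a : Fin (k + 2) → ℚ, Function.Injective a ∧ ∏ i, (X - C (a i)) = g ^ p + r := by
    refine ⟨fun i => b₀ (finProdFinEquiv.symm (finCongr hk i)), ?_, ?_⟩
    · intro i j hij
      exact (finCongr hk).injective (finProdFinEquiv.symm.injective (hb₀ hij))
    · rw [← hf₀]
      exact ((finCongr hk).trans finProdFinEquiv.symm).prod_comp (fun i => X - C (b₀ i))
  obtain ⟨d, hd, hden⟩ := exists_den
    (Finset.univ.image a ∪ (g.support.image g.coeff ∪ r.support.image r.coeff))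
  have hd0 : (d : ℚ) ≠ 0 := by exact_mod_cast hd.ne'
  have hdR : (0 : ℝ) < d := by exact_mod_cast hd
  have hden1 : ∀ i, (a i).den ∣ d := fun i => hden _ (Finset.mem_union_left _
    (Finset.mem_image_of_mem a (Finset.mem_univ i)))
  have hden2 : ∀ j, g.coeff j ≠ 0 → (g.coeff j).den ∣ d := fun j hj => hden _
    (Finset.mem_union_right _ (Finset.mem_union_left _
      (Finset.mem_image_of_mem g.coeff (mem_support_iff.2 hj))))
  have hden3 : ∀ j, r.coeff j ≠ 0 → (r.coeff j).den ∣ d := fun j hj => hden _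
    (Finset.mem_union_right _ (Finset.mem_union_right _
      (Finset.mem_image_of_mem r.coeff (mem_support_iff.2 hj))))
  have hrc : ∀ j, r.coeff j ≠ 0 → j < (p - 1) * e := by
    intro j hj
    by_contra h
    push Not at h
    exact hj (coeff_eq_zero_of_degree_lt (hr.trans_le (by exact_mod_cast h)))
  have hlt : (p - 1) * e < p * e := Nat.mul_lt_mul_of_pos_right (by omega) (by omega)
  obtain ⟨G, hG⟩ := scl_int (m := e) (p := g) hd fun j hj => by
    refine ⟨?_, fun h => ?_, hden2 j hj⟩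
    · rw [← hgn]
      exact le_natDegree_of_ne_zero hj
    · rw [h, ← hgn]
      exact hg
  obtain ⟨Q, hQ⟩ := scl_int (m := p * e) (p := r) hd fun j hj => by
    have := hrc j hj
    exact ⟨by omega, fun h => by omega, hden3 j hj⟩
  choose b hb using fun i => mul_int (a i) d (hden1 i)
  have hinj : Function.Injective (algebraMap ℤ ℚ) := by
    intro x y h
    simpa using h
  have hGm : (scl d e g).coeff e = 1 := by
    rw [scl_coeff]
    have : g.coeff e = 1 := by
      rw [← hgn]
      exact hg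
    rw [this, one_mul, ← mul_pow, mul_inv_cancel₀ hd0, one_pow]
  have hGc : ∀ j, e < j → (scl d e g).coeff j = 0 := by
    intro j hj
    rw [scl_coeff, coeff_eq_zero_of_natDegree_lt (by omega), zero_mul, mul_zero]
  have hGn' : (scl d e g).natDegree = e :=
    natDegree_eq_of_le_of_coeff_ne_zero
      (natDegree_le_iff_coeff_eq_zero.2 fun j hj => hGc j hj) (by rw [hGm]; exact one_ne_zero)
  have hGn : G.natDegree = e := by
    rw [← natDegree_map_eq_of_injective hinj G, hG, hGn']
  have hGmon : G.Monic := by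
    apply hinj.monic_map_iff.2
    rw [hG, Monic, leadingCoeff, hGn', hGm]
  have hQd : Q.degree < ((p - 1) * e : ℕ) := by
    rw [degree_lt_iff_coeff_zero]
    intro j hj
    apply hinj
    rw [← coeff_map, hQ, scl_coeff, map_zero]
    have : r.coeff j = 0 := by
      by_contra h
      have := hrc j h
      omega
    rw [this, zero_mul, mul_zero]
  have hprod : ∏ i, (X - C (b i)) = G ^ p + Q := by
    apply map_injective _ hinj
    rw [Polynomial.map_prod, Polynomial.map_add, Polynomial.map_pow, hG, hQ]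
    have e1 : ∀ i, (X - C (b i)).map (algebraMap ℤ ℚ)
        = C (d : ℚ) * (X - C (a i)).comp (C (d : ℚ)⁻¹ * X) := by
      intro i
      rw [Polynomial.map_sub, map_X, map_C, sub_comp, X_comp, C_comp, eq_intCast, hb, mul_sub,
        ← mul_assoc, ← C_mul, ← C_mul, mul_inv_cancel₀ hd0, C_1, one_mul]
    have e2 : (C (d : ℚ) : ℚ[X]) ^ (k + 2) = C (d : ℚ) ^ (p * e) := congrArg _ hk
    rw [Finset.prod_congr rfl fun i _ => e1 i, Finset.prod_mul_distrib, Finset.prod_const,
      Finset.card_univ, Fintype.card_fin, e2, ← prod_comp, hf, add_comp, pow_comp, scl, scl,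
      mul_pow, ← C_pow, ← C_pow, ← pow_mul, mul_comm e p, mul_add]
  have hbinj : Function.Injective b := by
    intro i j hij
    apply ha
    have h1 := hb i
    rw [hij, hb j] at h1
    exact (mul_left_cancel₀ hd0 h1).symm
  let D : DatP p e k :=
    { a := b
      g := G
      r := Q
      hp := hp
      hp2 := hp2
      he := he
      hk := hk
      ha := hbinj
      hg := hGmon
      hgn := hGn
      hr := hQd
      hf := hprod }
  have hev : ∀ (P : ℤ[X]) (q : ℚ[X]) (m : ℕ), P.map (algebraMap ℤ ℚ) = scl d m q → ∀ x : ℝ,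
      aeval ((d : ℝ) * x) P = (d : ℝ) ^ m * aeval x q := by
    intro P q m hP x
    rw [← aeval_map_algebraMap ℚ ((d : ℝ) * x) P, hP, scl, map_mul, aeval_C, aeval_comp, map_mul,
      aeval_C, aeval_X]
    have h1 : (algebraMap ℚ ℝ) (d : ℚ)⁻¹ * ((d : ℝ) * x) = x := by
      rw [map_inv₀, map_natCast, ← mul_assoc, inv_mul_cancel₀ hdR.ne', one_mul]
    rw [h1, map_pow, map_natCast]
  refine ⟨k, D, (d : ℝ) ^ e * α, (d : ℝ) ^ e * β, by positivity, by gcongr, fun σ h1 h2 x => ?_⟩
  have hdn : (0 : ℝ) < (d : ℝ) ^ e := by positivity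
  obtain ⟨τ, rfl⟩ : ∃ τ, σ = (d : ℝ) ^ e * τ := ⟨σ / (d : ℝ) ^ e, by field_simp⟩
  obtain ⟨y, rfl⟩ : ∃ y, x = (d : ℝ) * y := ⟨x / d, by field_simp⟩
  have h3 := hno τ (lt_of_mul_lt_mul_left h1 hdn.le) (lt_of_mul_lt_mul_left h2 hdn.le) y
  have e1 := hev G g e hG y
  have e2 := hev Q r (p * e) hQ y
  show (aeval ((d : ℝ) * y) G + (d : ℝ) ^ e * τ) ^ p ≠ aeval ((d : ℝ) * y) G ^ p + aeval ((d : ℝ) * y) Q
  rw [e1, e2, ← mul_add, mul_pow, mul_pow, ← pow_mul, mul_comm e p, ← mul_add]
  intro h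
  exact h3 (mul_left_cancel₀ (by positivity) h)

end Pool.Agent.J4H97.TP
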